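import Mathlib

/-!
# When `g_m(n) = 2 n` for odd `m`

For a composite `n = a b`, `2 ≤ a ≤ b`, the numbers `a b`, `a (b + 1)`, `(a + 1) b`, `(a + 1) (b + 1)` satisfy
`a b * (a (b + 1))^(m-1) * ((a + 1) b)^(m-1) * (a + 1) (b + 1) = (a b (a + 1) (b + 1))^m`, and
`(a + 1) (b + 1) < 2 a b` unless `a b = 4` or `a b = 6`.
-/

set_option autoImplicit false

namespace Pool.Agent.Results.MP_c9219e_nt.OddModuli

/-- an `m`-product sequence: a finite non-decreasing sequence whose product is an `m`-th power and in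
which no integer occurs more than `m - 1` times -/
def IsProductSeq (m : ℕ) (l : List ℕ) : Prop :=
  l.Pairwise (· ≤ ·) ∧ (∃ R : ℕ, l.prod = R ^ m) ∧ ∀ a : ℕ, l.count a ≤ m - 1

/-- `s` is the last term of an `m`-product sequence with first term `n` -/
def IsLast (m n s : ℕ) : Prop :=
  ∃ l : List ℕ, IsProductSeq m l ∧ l.head? = some n ∧ l.getLast? = some s

/-- the least possible last term of an `m`-product sequence with first term `n` -/
noncomputable def g (m n : ℕ) : ℕ := sInf {s : ℕ | IsLast m n s}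

/-- four blocks of equal entries -/
lemma isLast_blocks {m c1 v1 c2 v2 c3 v3 c4 v4 R : ℕ} (h12 : v1 < v2) (h23 : v2 < v3) (h34 : v3 < v4)
    (hc1 : 1 ≤ c1) (hc4 : 1 ≤ c4) (hm1 : c1 ≤ m - 1) (hm2 : c2 ≤ m - 1) (hm3 : c3 ≤ m - 1)
    (hm4 : c4 ≤ m - 1) (hprod : v1 ^ c1 * (v2 ^ c2 * (v3 ^ c3 * v4 ^ c4)) = R ^ m) :
    IsLast m v1 v4 := by
  refine ⟨List.replicate c1 v1 ++ (List.replicate c2 v2 ++ (List.replicate c3 v3 ++
    List.replicate c4 v4)), ⟨?_, ⟨R, ?_⟩, ?_⟩, ?_, ?_⟩
  · simp only [List.pairwise_append, List.mem_append, List.mem_replicate, List.pairwise_replicate]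
    refine ⟨Or.inr le_rfl, ⟨Or.inr le_rfl, ⟨Or.inr le_rfl, Or.inr le_rfl, ?_⟩, ?_⟩, ?_⟩
    · rintro a ⟨_, rfl⟩ b ⟨_, rfl⟩; omega
    · rintro a ⟨_, rfl⟩ b (⟨_, rfl⟩ | ⟨_, rfl⟩) <;> omega
    · rintro a ⟨_, rfl⟩ b (⟨_, rfl⟩ | ⟨_, rfl⟩ | ⟨_, rfl⟩) <;> omega
  · rw [List.prod_append, List.prod_append, List.prod_append, List.prod_replicate,
      List.prod_replicate, List.prod_replicate, List.prod_replicate, hprod]
  · intro a
    rw [List.count_append, List.count_append, List.count_append, List.count_replicate,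
      List.count_replicate, List.count_replicate, List.count_replicate]
    simp only [beq_iff_eq]
    split_ifs <;> omega
  · obtain ⟨k, rfl⟩ : ∃ k, c1 = k + 1 := ⟨c1 - 1, by omega⟩
    simp [List.replicate_succ]
  · obtain ⟨k, rfl⟩ : ∃ k, c4 = k + 1 := ⟨c4 - 1, by omega⟩
    rw [List.replicate_succ' (n := k)]
    simp [← List.append_assoc]

/-- composite numbers: `n = a b` with `2 ≤ a ≤ b` -/
lemma isLast_composite {m a b : ℕ} (hm : 3 ≤ m) (ha : 2 ≤ a) (hab : a ≤ b) :
    IsLast m (a * b) ((a + 1) * (b + 1)) := by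
  rcases hab.lt_or_eq with h | h
  · refine isLast_blocks (c1 := 1) (c2 := m - 1) (v2 := a * (b + 1)) (c3 := m - 1)
      (v3 := (a + 1) * b) (c4 := 1) (R := a * b * ((a + 1) * (b + 1))) ?_ ?_ ?_ le_rfl le_rfl
      (by omega) le_rfl le_rfl (by omega) ?_
    · nlinarith
    · nlinarith
    · nlinarith
    · obtain ⟨k, rfl⟩ : ∃ k, m = k + 1 := ⟨m - 1, by omega⟩
      simp only [Nat.add_sub_cancel]
      have e : a * b * ((a + 1) * (b + 1)) = (a * (b + 1)) * ((a + 1) * b) := by ring
      rw [e, mul_pow _ _ (k + 1), pow_succ, pow_succ]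
      ring
  · subst h
    refine isLast_blocks (c1 := 1) (c2 := m - 2) (v2 := a * (a + 1)) (c3 := 0)
      (v3 := a * (a + 1) + 1) (c4 := 1) (R := a * (a + 1)) ?_ ?_ ?_ le_rfl le_rfl
      (by omega) (by omega) (by omega) (by omega) ?_
    · nlinarith
    · omega
    · nlinarith
    · obtain ⟨k, rfl⟩ : ∃ k, m = k + 2 := ⟨m - 2, by omega⟩
      simp only [Nat.add_sub_cancel]
      ring

/-- `n = 6` and odd `m ≥ 5` -/
lemma isLast_six {m : ℕ} (hm : Odd m) (h5 : 5 ≤ m) : IsLast m 6 9 := by
  rcases h5.lt_or_eq with h | h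
  · obtain ⟨j, hj⟩ := hm
    refine isLast_blocks (c1 := m - 6) (c2 := 0) (v2 := 7) (c3 := 2) (v3 := 8) (c4 := 3) (R := 6)
      (by norm_num) (by norm_num) (by norm_num) (by omega) (by norm_num) (by omega) (by omega)
      (by omega) (by omega) ?_
    obtain ⟨k, rfl⟩ : ∃ k, m = k + 6 := ⟨m - 6, by omega⟩
    simp only [Nat.add_sub_cancel, pow_add]
    norm_num
  · subst h
    exact isLast_blocks (c1 := 4) (c2 := 0) (v2 := 7) (c3 := 2) (v3 := 8) (c4 := 3) (R := 36)
      (by norm_num) (by norm_num) (by norm_num) (by omega) (by norm_num) (by omega) (by omega)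
      (by omega) (by omega) (by norm_num)

/-- `g_3(4) ≠ 8` -/
lemma not_isLast_four : ¬ IsLast 3 4 8 := by
  rintro ⟨l, ⟨hs, ⟨R, hR⟩, hc⟩, hh, hl⟩
  -- every entry lies in `[4, 8]`
  have hmem4 : 4 ∈ l := List.mem_of_head? hh
  have hlow : ∀ a ∈ l, 4 ≤ a := by
    intro a ha
    cases l with
    | nil => simp at ha
    | cons b l =>
      simp only [List.head?_cons, Option.some.injEq] at hh
      subst hh
      rcases List.mem_cons.1 ha with h | h
      · exact h.ge
      · exact (List.pairwise_cons.1 hs).1 a h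
  have hhigh : ∀ a ∈ l, a ≤ 8 := by
    intro a ha
    obtain ⟨l', rfl⟩ : ∃ l', l = l' ++ [8] := by
      rw [List.getLast?_eq_some_iff] at hl
      exact hl
    rcases List.mem_append.1 ha with h | h
    · exact (List.pairwise_append.1 hs).2.2 a h 8 (by simp)
    · simp only [List.mem_singleton] at h
      exact h.le
  -- the product in terms of the multiplicities
  have hprod : l.prod = 4 ^ l.count 4 * 5 ^ l.count 5 * 6 ^ l.count 6 * 7 ^ l.count 7 *
      8 ^ l.count 8 := by
    have h1 : l.toFinset ⊆ Finset.Icc 4 8 := by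
      intro a ha
      rw [List.mem_toFinset] at ha
      rw [Finset.mem_Icc]
      exact ⟨hlow a ha, hhigh a ha⟩
    rw [Finset.prod_list_count l, Finset.prod_subset h1 (fun a _ ha => by
      rw [List.mem_toFinset] at ha
      rw [List.count_eq_zero.2 ha, pow_zero])]
    have h2 : Finset.Icc 4 8 = {4, 5, 6, 7, 8} := by decide
    rw [h2]
    simp [Finset.prod_insert, mul_assoc]
  have hR0 : R ≠ 0 := by
    rintro rfl
    rw [hprod] at hR
    simp at hR
  have h4 : 1 ≤ l.count 4 := List.count_pos_iff.2 hmem4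
  have hc4 := hc 4
  have hc5 := hc 5
  have hc6 := hc 6
  have hc7 := hc 7
  norm_num at hc4 hc5 hc6 hc7
  have hf : ∀ p : ℕ, 3 ∣ (l.prod).factorization p := by
    intro p
    rw [hR, Nat.factorization_pow]
    exact ⟨R.factorization p, by simp⟩
  have e : l.prod = 2 ^ (2 * l.count 4 + l.count 6 + 3 * l.count 8) * 3 ^ l.count 6 *
      5 ^ l.count 5 * 7 ^ l.count 7 := by
    rw [hprod, show (4 : ℕ) = 2 ^ 2 by norm_num, show (8 : ℕ) = 2 ^ 3 by norm_num,
      show (6 : ℕ) = 2 * 3 by norm_num, mul_pow, ← pow_mul, ← pow_mul]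
    simp only [pow_add]
    ring_nf
  have f2 : (l.prod).factorization 2 = 2 * l.count 4 + l.count 6 + 3 * l.count 8 := by
    rw [e, Nat.factorization_mul (by positivity) (by positivity),
      Nat.factorization_mul (by positivity) (by positivity),
      Nat.factorization_mul (by positivity) (by positivity),
      Nat.Prime.factorization_pow Nat.prime_two, Nat.Prime.factorization_pow Nat.prime_three,
      Nat.Prime.factorization_pow (by norm_num), Nat.Prime.factorization_pow (by norm_num)]
    simp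
  have f3 : (l.prod).factorization 3 = l.count 6 := by
    rw [e, Nat.factorization_mul (by positivity) (by positivity),
      Nat.factorization_mul (by positivity) (by positivity),
      Nat.factorization_mul (by positivity) (by positivity),
      Nat.Prime.factorization_pow Nat.prime_two, Nat.Prime.factorization_pow Nat.prime_three,
      Nat.Prime.factorization_pow (by norm_num), Nat.Prime.factorization_pow (by norm_num)]
    simp
  have g2 := hf 2
  have g3 := hf 3
  rw [f2] at g2
  rw [f3] at g3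
  omega

/-- **Odd moduli.** For every odd `m ≥ 3` and every natural number `n`, if `g_m(n) = 2 n` then `n = 0`,
or `n` is prime, or `n = 4` and `m ≥ 5`, or `(m, n) = (3, 6)`. -/
theorem result : ∀ m : ℕ, Odd m → 3 ≤ m → ∀ n : ℕ, g m n = 2 * n →
    n = 0 ∨ n.Prime ∨ (n = 4 ∧ 5 ≤ m) ∨ (m = 3 ∧ n = 6) := by
  intro m hmo hm n hg
  by_contra hcon
  push Not at hcon
  obtain ⟨h0, hp, h4, h6⟩ := hcon
  -- it is enough to find a sequence ending before `2 n`
  have hlt : ∀ s : ℕ, IsLast m n s → s < 2 * n → False := by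
    intro s hs hs2
    have : g m n ≤ s := Nat.sInf_le hs
    omega
  rcases Nat.lt_or_ge n 2 with hn2 | hn2
  · have hn1 : n = 1 := by omega
    subst hn1
    refine hlt 1 ⟨[1], ⟨by simp, ⟨1, by simp⟩, fun a => ?_⟩, rfl, rfl⟩ (by norm_num)
    rw [List.count_singleton]
    split_ifs <;> omega
  · obtain ⟨a, b, ha, hab, hn⟩ : ∃ a b : ℕ, 2 ≤ a ∧ a ≤ b ∧ n = a * b := by
      obtain ⟨c, hc⟩ := Nat.minFac_dvd n
      have h1 : n.minFac ^ 2 ≤ n := Nat.minFac_sq_le_self (by omega) hp
      have h2 : 2 ≤ n.minFac := (Nat.minFac_prime (by omega)).two_le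
      refine ⟨n.minFac, c, h2, ?_, hc⟩
      by_contra hlt
      push Not at hlt
      nlinarith
    by_cases hbig : 4 ≤ b ∨ 3 ≤ a
    · refine hlt _ (by rw [hn]; exact isLast_composite hm ha hab) ?_
      rw [hn]
      rcases hbig with h | h
      · nlinarith
      · nlinarith
    · push Not at hbig
      have ha2 : a = 2 := by omega
      subst ha2
      have hb : b = 2 ∨ b = 3 := by omega
      rcases hb with rfl | rfl
      · -- `n = 4`
        norm_num at hn
        subst hn
        have hm3 : m = 3 := by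
          have := h4 rfl
          obtain ⟨j, hj⟩ := hmo
          omega
        subst hm3
        have hne : {s : ℕ | IsLast 3 4 s}.Nonempty := by
          rw [Set.nonempty_iff_ne_empty]
          intro h
          rw [g, h] at hg
          simp at hg
        have := Nat.sInf_mem hne
        have h8 : sInf {s : ℕ | IsLast 3 4 s} = 8 := hg
        rw [h8] at this
        exact not_isLast_four this
      · -- `n = 6`
        norm_num at hn
        subst hn
        have hm5 : 5 ≤ m := by
          have h3 : m ≠ 3 := fun h => h6 h rfl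
          obtain ⟨j, hj⟩ := hmo
          omega
        exact hlt 9 (isLast_six hmo hm5) (by norm_num)

end Pool.Agent.Results.MP_c9219e_nt.OddModuli
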